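import Pool.Agent.L7lead.LA.Stm

set_option autoImplicit false
open MeasureTheory

namespace Pool.Agent.L7h12.LA

open Pool.Agent.L7lead.LA

theorem t_DIR : S_DIR := by
  intro T hT
  by_contra hcon
  push Not at hcon
  have h1 : (Set.univ : Set E) ⊆ ⋃ v ∈ T, (((ℝ ∙ v)ᗮ : Submodule ℝ E) : Set E) := by
    intro b _
    obtain ⟨v, hv, hvb⟩ := hcon b
    refine Set.mem_iUnion₂.mpr ⟨v, hv, ?_⟩
    exact Submodule.mem_orthogonal_singleton_iff_inner_right.mpr hvb
  have h2 : volume (⋃ v ∈ T, (((ℝ ∙ v)ᗮ : Submodule ℝ E) : Set E)) = 0 := by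
    refine (measure_biUnion_null_iff (I := (T : Set E)) T.countable_toSet).mpr ?_
    intro v hv
    refine Measure.addHaar_submodule _ _ ?_
    intro htop
    have h3 : v ∈ ((ℝ ∙ v)ᗮ : Submodule ℝ E) := by rw [htop]; trivial
    have h4 := Submodule.mem_orthogonal_singleton_iff_inner_right.mp h3
    exact hT v hv (inner_self_eq_zero.mp h4)
  have h5 := measure_mono_null h1 h2
  exact (NeZero.ne (volume : Measure E)) (Measure.measure_univ_eq_zero.mp h5)

/-- even derivatives of a vanishing cosine sum vanish -/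
theorem derivs {ι : Type} [Fintype ι] (a l θ : ι → ℝ)
    (h : ∀ t : ℝ, ∑ e, a e * Real.cos (l e * t + θ e) = 0) (m : ℕ) :
    ∀ t : ℝ, ∑ e, (a e * Real.cos (l e * t + θ e)) * (-(l e ^ 2)) ^ m = 0 := by
  induction m with
  | zero => intro t; simpa using h t
  | succ m ih =>
    have hl : ∀ (e : ι) (t : ℝ), HasDerivAt (fun t => l e * t + θ e) (l e) t := by
      intro e t
      have := ((hasDerivAt_id t).const_mul (l e)).add_const (θ e)
      simpa using this
    have h1 : ∀ t : ℝ, ∑ e, (a e * (-(Real.sin (l e * t + θ e) * l e))) * (-(l e ^ 2)) ^ m = 0 := by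
      intro t
      have hd : HasDerivAt (fun t => ∑ e, (a e * Real.cos (l e * t + θ e)) * (-(l e ^ 2)) ^ m)
          (∑ e, (a e * (-(Real.sin (l e * t + θ e) * l e))) * (-(l e ^ 2)) ^ m) t := by
        refine HasDerivAt.fun_sum fun e _ => ?_
        have := (((Real.hasDerivAt_cos _).comp t (hl e t)).const_mul (a e)).mul_const ((-(l e ^ 2)) ^ m)
        refine this.congr_deriv ?_
        ring
      have h0 : (fun t => ∑ e, (a e * Real.cos (l e * t + θ e)) * (-(l e ^ 2)) ^ m) = fun _ => 0 := by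
        funext s; exact ih s
      rw [h0] at hd
      exact hd.unique (hasDerivAt_const t 0)
    intro t
    have hd : HasDerivAt (fun t => ∑ e, (a e * (-(Real.sin (l e * t + θ e) * l e))) * (-(l e ^ 2)) ^ m)
        (∑ e, (a e * (-(Real.cos (l e * t + θ e) * l e * l e))) * (-(l e ^ 2)) ^ m) t := by
      refine HasDerivAt.fun_sum fun e _ => ?_
      have := (((((Real.hasDerivAt_sin _).comp t (hl e t)).mul_const (l e)).fun_neg).const_mul
        (a e)).mul_const ((-(l e ^ 2)) ^ m)
      exact this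
    have h0 : (fun t => ∑ e, (a e * (-(Real.sin (l e * t + θ e) * l e))) * (-(l e ^ 2)) ^ m) =
        fun _ => 0 := by
      funext s; exact h1 s
    rw [h0] at hd
    have h2 := hd.unique (hasDerivAt_const t 0)
    rw [← h2]
    refine Finset.sum_congr rfl fun e _ => ?_
    rw [pow_succ]
    ring

theorem t_LIN : S_LIN := by
  intro ι _ a l θ hl hll h e₀
  classical
  -- evaluation of polynomials
  have key : ∀ t : ℝ, ∀ p : Polynomial ℝ,
      ∑ e, (a e * Real.cos (l e * t + θ e)) * p.eval (-(l e ^ 2)) = 0 := by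
    intro t p
    have h1 : ∀ e : ι, (a e * Real.cos (l e * t + θ e)) * p.eval (-(l e ^ 2)) =
        ∑ m ∈ Finset.range (p.natDegree + 1),
          p.coeff m * ((a e * Real.cos (l e * t + θ e)) * (-(l e ^ 2)) ^ m) := by
      intro e
      rw [Polynomial.eval_eq_sum_range, Finset.mul_sum]
      refine Finset.sum_congr rfl fun m _ => ?_
      ring
    simp only [h1]
    rw [Finset.sum_comm]
    refine Finset.sum_eq_zero fun m _ => ?_
    rw [← Finset.mul_sum, derivs a l θ h m t, mul_zero]
  have h2 := key (-(θ e₀) / l e₀) (∏ e ∈ Finset.univ.erase e₀, (Polynomial.X - Polynomial.C (-(l e ^ 2))))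
  rw [Finset.sum_eq_single e₀] at h2
  · have h3 : l e₀ * (-(θ e₀) / l e₀) + θ e₀ = 0 := by
      rw [mul_div_cancel₀ _ (hl e₀)]
      ring
    rw [h3, Real.cos_zero, mul_one, Polynomial.eval_prod] at h2
    rcases mul_eq_zero.mp h2 with h4 | h4
    · exact h4
    · exfalso
      rw [Finset.prod_eq_zero_iff] at h4
      obtain ⟨e, he, h5⟩ := h4
      simp only [Polynomial.eval_sub, Polynomial.eval_X, Polynomial.eval_C] at h5
      exact hll e₀ e (Finset.ne_of_mem_erase he).symm (by linarith)
  · intro e _ hne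
    rw [Polynomial.eval_prod]
    have : ∏ j ∈ Finset.univ.erase e₀, Polynomial.eval (-(l e ^ 2)) (Polynomial.X - Polynomial.C (-(l j ^ 2))) = 0 := by
      refine Finset.prod_eq_zero (Finset.mem_erase.mpr ⟨hne, Finset.mem_univ e⟩) ?_
      simp
    rw [this, mul_zero]
  · intro hh
    exact absurd (Finset.mem_univ _) hh

end Pool.Agent.L7h12.LA
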