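import Pool.Agent.L7h12.LA.Dir

set_option autoImplicit false
open MeasureTheory

namespace Pool.Agent.L7h12.LA

open Pool.Agent.L7lead.LA

theorem line_null {ι : Type} [Fintype ι] (a l θ : ι → ℝ) (hl : ∀ e, l e ≠ 0)
    (hll : ∀ e e', e ≠ e' → l e ^ 2 ≠ l e' ^ 2) (hne : ∃ e, a e ≠ 0) :
    ∀ᵐ t : ℝ, ∑ e, a e * Real.cos (l e * t + θ e) ≠ 0 := by
  obtain ⟨e₀, he₀⟩ := hne
  have h1 : ∃ t : ℝ, ∑ e, a e * Real.cos (l e * t + θ e) ≠ 0 := by
    by_contra hcon
    push Not at hcon
    exact he₀ (t_LIN ι a l θ hl hll hcon e₀)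
  obtain ⟨t, ht⟩ := h1
  have hA : AnalyticOnNhd ℝ (fun t : ℝ => ∑ e, a e * Real.cos (l e * t + θ e)) Set.univ := by
    intro s _
    refine Finset.analyticAt_fun_sum _ fun e _ => ?_
    refine analyticAt_const.mul ?_
    have h2 : AnalyticAt ℝ (fun t : ℝ => l e * t + θ e) s :=
      (analyticAt_const.mul analyticAt_id).add analyticAt_const
    exact (Real.analyticAt_cos).comp h2
  have h3 := hA.preimage_zero_mem_codiscrete (x := t) ht
  have h4 := ae_restrict_le_codiscreteWithin (μ := (volume : Measure ℝ)) MeasurableSet.univ h3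
  rw [Measure.restrict_univ] at h4
  filter_upwards [h4] with s hs
  exact hs

theorem t_NUL : S_NUL := by
  intro ι _ a θ k hk hkk hne
  classical
  obtain ⟨b, hb⟩ := t_DIR (Finset.univ.image k ∪
    ((Finset.univ.filter fun p : ι × ι => p.1 ≠ p.2).image (fun p => k p.1 - k p.2) ∪
      (Finset.univ.filter fun p : ι × ι => p.1 ≠ p.2).image (fun p => k p.1 + k p.2))) (by
    intro v hv
    rcases Finset.mem_union.mp hv with h | h
    · obtain ⟨e, _, rfl⟩ := Finset.mem_image.mp h
      exact hk e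
    · rcases Finset.mem_union.mp h with h | h
      · obtain ⟨p, hp, rfl⟩ := Finset.mem_image.mp h
        exact sub_ne_zero.mpr (hkk _ _ (Finset.mem_filter.mp hp).2).1
      · obtain ⟨p, hp, rfl⟩ := Finset.mem_image.mp h
        intro h0
        exact (hkk _ _ (Finset.mem_filter.mp hp).2).2 (eq_neg_of_add_eq_zero_left h0))
  have hb1 : ∀ e, inner ℝ (k e) b ≠ 0 := fun e =>
    hb _ (Finset.mem_union_left _ (Finset.mem_image_of_mem k (Finset.mem_univ e)))
  have hb2 : ∀ e e', e ≠ e' → (inner ℝ (k e) b) ^ 2 ≠ (inner ℝ (k e') b) ^ 2 := by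
    intro e e' hee h
    have h1 := hb (k e - k e') (Finset.mem_union_right _ (Finset.mem_union_left _
      (Finset.mem_image.mpr ⟨(e, e'), Finset.mem_filter.mpr ⟨Finset.mem_univ _, hee⟩, rfl⟩)))
    have h2 := hb (k e + k e') (Finset.mem_union_right _ (Finset.mem_union_right _
      (Finset.mem_image.mpr ⟨(e, e'), Finset.mem_filter.mpr ⟨Finset.mem_univ _, hee⟩, rfl⟩)))
    rw [inner_sub_left] at h1
    rw [inner_add_left] at h2
    have h3 : (inner ℝ (k e) b - inner ℝ (k e') b) * (inner ℝ (k e) b + inner ℝ (k e') b) = 0 := by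
      linear_combination h
    rcases mul_eq_zero.mp h3 with h4 | h4
    · exact h1 h4
    · exact h2 h4
  have hcont : Continuous fun y : E => ∑ e, a e * Real.cos (inner ℝ (k e) y + θ e) := by
    refine continuous_finsetSum _ fun e _ => ?_
    exact continuous_const.mul (Real.continuous_cos.comp
      ((continuous_const.inner continuous_id).add continuous_const))
  have hmeas : MeasurableSet {y : E | ∑ e, a e * Real.cos (inner ℝ (k e) y + θ e) ≠ 0} :=
    (isOpen_ne_fun hcont continuous_const).measurableSet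
  have hae : ∀ᵐ y : E, y ∈ {y : E | ∑ e, a e * Real.cos (inner ℝ (k e) y + θ e) ≠ 0} := by
    refine ae_mem_of_ae_add_linearMap_mem (LinearMap.toSpanSingleton ℝ E b) (volume : Measure ℝ)
      (volume : Measure E) hmeas ?_
    intro y
    have h5 := line_null a (fun e => inner ℝ (k e) b) (fun e => inner ℝ (k e) y + θ e) hb1 hb2 hne
    filter_upwards [h5] with t ht
    show ∑ e, a e * Real.cos (inner ℝ (k e) (y + (LinearMap.toSpanSingleton ℝ E b) t) + θ e) ≠ 0
    have h6 : ∀ e, inner ℝ (k e) (y + (LinearMap.toSpanSingleton ℝ E b) t) + θ e =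
        inner ℝ (k e) b * t + (inner ℝ (k e) y + θ e) := by
      intro e
      rw [LinearMap.toSpanSingleton_apply, inner_add_right, inner_smul_right]
      ring
    simp only [h6]
    exact ht
  rw [ae_iff] at hae
  convert hae using 2
  ext y
  simp

end Pool.Agent.L7h12.LA
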